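import Pool.Agent.V1139.SL2.Three
import Pool.Agent.V1117.Sl2

set_option autoImplicit false

open Matrix Module

namespace Pool.Agent.Results.MP_44ae8d_al.NoEquitable

open Pool.Agent.V1139.Leonard Pool.Agent.V1139.Three

/-- `x, y, z` give an irreducible `sl2`-module structure on `V`, in terms of the equitable basis:
`[x,y] = 2x + 2y`, `[y,z] = 2y + 2z`, `[z,x] = 2z + 2x`. -/
def IsIrreducibleEquitable {K V : Type} [Field K] [AddCommGroup V] [Module K V]
    (x y z : Module.End K V) : Prop :=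
  x * y - y * x = (2 : K) • x + (2 : K) • y ∧ y * z - z * y = (2 : K) • y + (2 : K) • z ∧
    z * x - x * z = (2 : K) • z + (2 : K) • x ∧
    ∀ W : Submodule K V, W.map x ≤ W → W.map y ≤ W → W.map z ≤ W → W = ⊥ ∨ W = ⊤

/-- `T` is a linear combination of `I, x, y, xy`. -/
def IsComb {K V : Type} [Field K] [AddCommGroup V] [Module K V]
    (T x y : Module.End K V) : Prop :=
  ∃ a b c e : K, T = a • 1 + b • x + c • y + e • (x * y)

/-- Some irreducible `sl2`-module structure on `V` represents `A, B, C` in the required way. -/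
def HasEquitableForm {K V : Type} [Field K] [AddCommGroup V] [Module K V]
    (A B C : Module.End K V) : Prop :=
  ∃ x y z : Module.End K V, IsIrreducibleEquitable x y z ∧ IsComb A x y ∧ IsComb B y z ∧
    IsComb C z x

section
variable {K : Type} [Field K]

abbrev V3 (K : Type) : Type := Fin 3 → K

theorem comb_vec {V : Type} [AddCommGroup V] [Module K V] {T x y : Module.End K V}
    (h : IsComb T x y) (p : V) (s t : K) (hx : x p = s • p) (hy : y p = t • p) :
    ∃ m : K, T p = m • p := by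
  obtain ⟨a, b, c, e, rfl⟩ := h
  refine ⟨a + b * s + c * t + e * (t * s), ?_⟩
  simp only [LinearMap.add_apply, LinearMap.smul_apply, Module.End.one_apply,
    Module.End.mul_apply, hx, hy, map_smul]
  module

theorem comb_covec {V : Type} [AddCommGroup V] [Module K V] {T x y : Module.End K V}
    (h : IsComb T x y) (L : V →ₗ[K] K) (s t : K) (hx : ∀ v, L (x v) = s * L v)
    (hy : ∀ v, L (y v) = t * L v) : ∃ m : K, ∀ v, L (T v) = m * L v := by
  obtain ⟨a, b, c, e, rfl⟩ := h
  refine ⟨a + b * s + c * t + e * (s * t), fun v => ?_⟩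
  simp only [LinearMap.add_apply, LinearMap.smul_apply, Module.End.one_apply,
    Module.End.mul_apply, map_add, map_smul, smul_eq_mul, hx, hy]
  ring

variable [CharZero K]

theorem flags {V : Type} [AddCommGroup V] [Module K V] [FiniteDimensional K V]
    (hdim : Module.finrank K V = 3) (x y z : Module.End K V)
    (h : IsIrreducibleEquitable x y z) :
    ∃ (P1 P2 P3 : V) (L1 L2 L3 : V →ₗ[K] K),
      (x P1 = (2 : K) • P1 ∧ y P1 = (-2 : K) • P1 ∧ (∀ v, L1 (x v) = -2 * L1 v) ∧
        (∀ v, L1 (y v) = 2 * L1 v) ∧ L1 P1 = 0) ∧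
      (y P2 = (2 : K) • P2 ∧ z P2 = (-2 : K) • P2 ∧ (∀ v, L2 (y v) = -2 * L2 v) ∧
        (∀ v, L2 (z v) = 2 * L2 v) ∧ L2 P2 = 0) ∧
      (z P3 = (2 : K) • P3 ∧ x P3 = (-2 : K) • P3 ∧ (∀ v, L3 (z v) = -2 * L3 v) ∧
        (∀ v, L3 (x v) = 2 * L3 v) ∧ L3 P3 = 0) ∧
      L1 P2 * L2 P3 * L3 P1 = 2 ∧ L1 P3 * L2 P1 * L3 P2 = 2 := by
  obtain ⟨hxy, hyz, hzx, hirr⟩ := h
  have two : (2 : K) ≠ 0 := two_ne_zero
  -- the standard generators
  obtain ⟨e, he⟩ : ∃ e : Module.End K V, e = (2 : K)⁻¹ • (x + z) := ⟨_, rfl⟩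
  obtain ⟨f, hf⟩ : ∃ f : Module.End K V, f = -((2 : K)⁻¹ • (y + z)) := ⟨_, rfl⟩
  have hx : x = (2 : K) • e - z := by
    rw [he, smul_smul, mul_inv_cancel₀ two, one_smul]; abel
  have hy : y = -((2 : K) • f) - z := by
    rw [hf, smul_neg, smul_smul, mul_inv_cancel₀ two, one_smul]; abel
  have r1 : z * e - e * z = (2 : K) • e := by
    have : z * e - e * z = (2 : K)⁻¹ • (z * x - x * z) := by
      rw [he, mul_smul_comm, smul_mul_assoc, ← smul_sub, mul_add, add_mul]
      congr 1
      abel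
    rw [this, hzx, he, smul_add, smul_smul, smul_smul, inv_mul_cancel₀ two, smul_smul,
      mul_inv_cancel₀ two, one_smul, one_smul, one_smul]
    abel
  have r2 : z * f - f * z = -(2 : K) • f := by
    have : z * f - f * z = (2 : K)⁻¹ • (y * z - z * y) := by
      rw [hf, mul_neg, neg_mul, mul_smul_comm, smul_mul_assoc, mul_add, add_mul,
        sub_neg_eq_add, neg_add_eq_sub, ← smul_sub]
      congr 1
      abel
    rw [this, hyz, hf, smul_add, smul_smul, smul_smul, inv_mul_cancel₀ two, neg_smul, smul_neg,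
      neg_neg, smul_smul, mul_inv_cancel₀ two, one_smul, one_smul, one_smul]
  have r3 : e * f - f * e = z := by
    have four : (4 : K) ≠ 0 := by norm_num
    have a1 : (2 : K) • e = x + z := by
      rw [he, smul_smul, mul_inv_cancel₀ two, one_smul]
    have a2 : (2 : K) • f = -(y + z) := by
      rw [hf, smul_neg, smul_smul, mul_inv_cancel₀ two, one_smul]
    have a3 : (4 : K) • (e * f - f * e) = ((2 : K) • e) * ((2 : K) • f)
        - ((2 : K) • f) * ((2 : K) • e) := by
      rw [smul_mul_smul_comm, smul_mul_smul_comm, ← smul_sub]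
      norm_num
    have a4 : (x + z) * (-(y + z)) - (-(y + z)) * (x + z)
        = -((x * y - y * x) - (z * x - x * z) - (y * z - z * y)) := by noncomm_ring
    rw [a1, a2, a4, hxy, hyz, hzx] at a3
    have a5 : -((2 : K) • x + (2 : K) • y - ((2 : K) • z + (2 : K) • x)
        - ((2 : K) • y + (2 : K) • z)) = (4 : K) • z := by module
    rw [a5] at a3
    have a6 := congrArg (fun w => (4 : K)⁻¹ • w) a3
    simpa [smul_smul, inv_mul_cancel₀ four] using a6
  have : Nontrivial V := Module.nontrivial_of_finrank_pos (R := K) (by omega)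
  obtain ⟨k, u, huh, huf, hfl, he0, hue⟩ := Pool.Agent.V1117.Sl2.exists_basis r1 r2 r3 (by
    intro W w1 w2 w3
    apply hirr W
    · rintro _ ⟨v, hv, rfl⟩
      rw [hx]
      exact W.sub_mem (W.smul_mem _ (w2 v hv)) (w1 v hv)
    · rintro _ ⟨v, hv, rfl⟩
      rw [hy]
      exact W.sub_mem (W.neg_mem (W.smul_mem _ (w3 v hv))) (w1 v hv)
    · rintro _ ⟨v, hv, rfl⟩
      exact w1 v hv)
  have hk : k = 2 := by
    have h1 := Module.finrank_eq_card_basis u
    rw [hdim, Fintype.card_fin] at h1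
    omega
  subst hk
  have z0 : z (u 0) = (2 : K) • u 0 := by
    have := huh 0
    simpa using this
  have z1 : z (u 1) = 0 := by
    have := huh 1
    simpa using this
  have z2 : z (u 2) = (-2 : K) • u 2 := by
    have := huh 2
    rw [this]
    congr 1
    norm_num
  have f0 : f (u 0) = u 1 := huf 0 (by omega)
  have f1 : f (u 1) = u 2 := huf 1 (by omega)
  have f2 : f (u 2) = 0 := hfl
  have e0 : e (u 0) = 0 := he0
  have e1 : e (u 1) = (2 : K) • u 0 := by
    have := hue 0 (by omega)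
    have h3 : (((0 : ℕ) : K) + 1) * (((2 : ℕ) : K) - ((0 : ℕ) : K)) = 2 := by norm_num
    rw [h3] at this
    exact this
  have e2 : e (u 2) = (2 : K) • u 1 := by
    have := hue 1 (by omega)
    have h3 : (((1 : ℕ) : K) + 1) * (((2 : ℕ) : K) - ((1 : ℕ) : K)) = 2 := by norm_num
    rw [h3] at this
    exact this
  have x0 : x (u 0) = (-2 : K) • u 0 := by
    rw [hx, LinearMap.sub_apply, LinearMap.smul_apply, e0, z0]; module
  have x1 : x (u 1) = (4 : K) • u 0 := by
    rw [hx, LinearMap.sub_apply, LinearMap.smul_apply, e1, z1]; module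
  have x2 : x (u 2) = (4 : K) • u 1 + (2 : K) • u 2 := by
    rw [hx, LinearMap.sub_apply, LinearMap.smul_apply, e2, z2]; module
  have y0 : y (u 0) = (-2 : K) • u 1 + (-2 : K) • u 0 := by
    rw [hy, LinearMap.sub_apply, LinearMap.neg_apply, LinearMap.smul_apply, f0, z0]; module
  have y1 : y (u 1) = (-2 : K) • u 2 := by
    rw [hy, LinearMap.sub_apply, LinearMap.neg_apply, LinearMap.smul_apply, f1, z1]; module
  have y2 : y (u 2) = (2 : K) • u 2 := by
    rw [hy, LinearMap.sub_apply, LinearMap.neg_apply, LinearMap.smul_apply, f2, z2]; module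
  have c00 : u.coord 0 (u 0) = 1 := by simp
  have c01 : u.coord 0 (u 1) = 0 := by simp
  have c02 : u.coord 0 (u 2) = 0 := by simp
  have c10 : u.coord 1 (u 0) = 0 := by simp
  have c11 : u.coord 1 (u 1) = 1 := by simp
  have c12 : u.coord 1 (u 2) = 0 := by simp
  have c20 : u.coord 2 (u 0) = 0 := by simp
  have c21 : u.coord 2 (u 1) = 0 := by simp
  have c22 : u.coord 2 (u 2) = 1 := by simp
  have ext3 : ∀ (L : V →ₗ[K] K) (T : Module.End K V) (s : K),
      (∀ i, L (T (u i)) = s * L (u i)) → ∀ v, L (T v) = s * L v := by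
    intro L T s h v
    have : L ∘ₗ T = s • L := by
      apply u.ext
      intro i
      simpa using h i
    simpa using LinearMap.congr_fun this v
  refine ⟨(2 : K) • u 0 + (2 : K) • u 1 + u 2, u 2, u 0,
    u.coord 0 - (2 : K) • u.coord 1 + (2 : K) • u.coord 2, u.coord 0, u.coord 2,
    ⟨?_, ?_, ?_, ?_, ?_⟩, ⟨?_, ?_, ?_, ?_, ?_⟩, ⟨?_, ?_, ?_, ?_, ?_⟩, ?_, ?_⟩
  · rw [map_add, map_add, map_smul, map_smul, x0, x1, x2]; module
  · rw [map_add, map_add, map_smul, map_smul, y0, y1, y2]; module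
  · apply ext3
    intro i
    fin_cases i
    · simp [x0]
    · simp [x1]; norm_num
    · simp [x2]; norm_num
  · apply ext3
    intro i
    fin_cases i
    · simp [y0]; norm_num
    · simp [y1]
    · simp [y2]
  · simp; norm_num
  · exact y2
  · exact z2
  · apply ext3
    intro i
    fin_cases i
    · simp [y0]
    · simp [y1]
    · simp [y2]
  · apply ext3
    intro i
    fin_cases i
    · simp [z0]
    · simp [z1]
    · simp [z2]
  · simp
  · exact z0
  · exact x0
  · apply ext3
    intro i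
    fin_cases i
    · simp [z0]
    · simp [z1]
    · simp [z2]
  · apply ext3
    intro i
    fin_cases i
    · simp [x0]
    · simp [x1]
    · simp [x2]
  · simp
  · simp
  · simp

end

def mA (K : Type) [Field K] : Matrix (Fin 3) (Fin 3) K := !![0, 2, 0; 1, 0, 1; 0, 2, 0]
def mB (K : Type) [Field K] : Matrix (Fin 3) (Fin 3) K := !![2, 0, 0; 0, 0, 0; 0, 0, -2]
def mC (K : Type) [Field K] : Matrix (Fin 3) (Fin 3) K := !![0, 1, 0; 2, 0, -2; 0, -1, 0]

noncomputable def opA (K : Type) [Field K] : Module.End K (V3 K) := (mA K).mulVecLin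
noncomputable def opB (K : Type) [Field K] : Module.End K (V3 K) := (mB K).mulVecLin
noncomputable def opC (K : Type) [Field K] : Module.End K (V3 K) := (mC K).mulVecLin

def wA : Fin 3 → Fin 3 → ℤ := ![![1, 1, 1], ![1, 0, -1], ![1, -1, 1]]
def lA : Fin 3 → Fin 3 → ℤ := ![![1, 2, 1], ![1, 0, -1], ![1, -2, 1]]
def wB : Fin 3 → Fin 3 → ℤ := ![![1, 0, 0], ![0, 1, 0], ![0, 0, 1]]
def wC : Fin 3 → Fin 3 → ℤ := ![![1, 2, -1], ![1, 0, 1], ![1, -2, -1]]
def lC : Fin 3 → Fin 3 → ℤ := ![![1, 1, -1], ![1, 0, 1], ![1, -1, -1]]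

def dt (a b : Fin 3 → ℤ) : ℤ := a 0 * b 0 + a 1 * b 1 + a 2 * b 2

set_option maxRecDepth 100000 in
theorem check : ∀ i j k l m n : Fin 3, dt (lA j) (wA i) = 0 → dt (wB l) (wB k) = 0 →
    dt (lC n) (wC m) = 0 →
    dt (lA j) (wB k) * dt (wB l) (wC m) * dt (lC n) (wA i)
      = dt (lA j) (wC m) * dt (wB l) (wA i) * dt (lC n) (wB k) →
    dt (lA j) (wB k) * dt (wB l) (wC m) * dt (lC n) (wA i) = 0 := by
  decide +kernel

section
variable {K : Type} [Field K]

theorem opA_apply (v : V3 K) : opA K v = ![2 * v 1, v 0 + v 2, 2 * v 1] := by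
  unfold opA
  rw [Matrix.mulVecLin_apply]
  funext i
  fin_cases i <;> simp [mA, Matrix.mulVec, dotProduct, Fin.sum_univ_three]

theorem opB_apply (v : V3 K) : opB K v = ![2 * v 0, 0, -2 * v 2] := by
  unfold opB
  rw [Matrix.mulVecLin_apply]
  funext i
  fin_cases i <;> simp [mB, Matrix.mulVec, dotProduct, Fin.sum_univ_three]

theorem opC_apply (v : V3 K) : opC K v = ![v 1, 2 * v 0 - 2 * v 2, -v 1] := by
  unfold opC
  rw [Matrix.mulVecLin_apply]
  funext i
  fin_cases i <;> simp [mC, Matrix.mulVec, dotProduct, Fin.sum_univ_three]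
  ring

theorem gen (a b s m v0 v1 v2 : K) (hs : s * s = 1) (hab : a * b = 2) (h2 : (2 : K) ≠ 0)
    (h0 : a * v1 = m * v0) (h1 : b * (v0 + s * v2) = m * v1) (h3 : s * (a * v1) = m * v2) :
    (a * v1 = 2 * v0 ∧ v2 = s * v0) ∨ (a * v1 = -2 * v0 ∧ v2 = s * v0) ∨
      (v1 = 0 ∧ v2 = -s * v0) := by
  have ha : a ≠ 0 := by
    rintro rfl; apply h2; rw [← hab]; ring
  have hb : b ≠ 0 := by
    rintro rfl; apply h2; rw [← hab]; ring
  by_cases hm : m = 0
  · subst hm
    right; right
    have e1 : a * v1 = 0 := by rw [h0]; ring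
    have e2 : v1 = 0 := (mul_eq_zero.mp e1).resolve_left ha
    refine ⟨e2, ?_⟩
    have e3 : b * (v0 + s * v2) = 0 := by rw [h1]; ring
    have e4 : v0 + s * v2 = 0 := (mul_eq_zero.mp e3).resolve_left hb
    linear_combination s * e4 - v2 * hs
  · have e1 : m * (v2 - s * v0) = 0 := by linear_combination -h3 + s * h0
    have e2 : v2 = s * v0 := by
      have := (mul_eq_zero.mp e1).resolve_left hm
      linear_combination this
    have e3 : (m - 2) * ((m + 2) * v0) = 0 := by
      rw [e2] at h1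
      linear_combination (-m) * h0 - a * h1 + 2 * v0 * hab + a * b * v0 * hs
    rcases mul_eq_zero.mp e3 with h | h
    · left
      refine ⟨?_, e2⟩
      have : m = 2 := by linear_combination h
      rw [h0, this]
    · rcases mul_eq_zero.mp h with h | h
      · right; left
        refine ⟨?_, e2⟩
        have : m = -2 := by linear_combination h
        rw [h0, this]
      · left
        refine ⟨?_, e2⟩
        rw [h0, h]; ring

variable [CharZero K]

theorem eigA (v : V3 K) (m : K) (h : opA K v = m • v) :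
    ∃ (i : Fin 3) (c : K), ∀ k, v k = c * (wA i k : K) := by
  rw [opA_apply] at h
  have r0 := congrFun h 0
  have r1 := congrFun h 1
  have r2 := congrFun h 2
  simp at r0 r1 r2
  rcases gen 2 1 1 m (v 0) (v 1) (v 2) (by norm_num) (by norm_num) two_ne_zero r0
    (by linear_combination r1) (by linear_combination r2) with ⟨h1, h2⟩ | ⟨h1, h2⟩ | ⟨h1, h2⟩
  · refine ⟨0, v 0, fun k => ?_⟩
    have h1' : v 1 = v 0 := mul_left_cancel₀ (two_ne_zero (α := K)) h1
    fin_cases k
    · simp [wA]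
    · simp [wA, h1']
    · simp [wA, h2]
  · refine ⟨2, v 0, fun k => ?_⟩
    have h1' : v 1 = -v 0 := mul_left_cancel₀ (two_ne_zero (α := K)) (by linear_combination h1)
    fin_cases k
    · simp [wA]
    · simp [wA, h1']
    · simp [wA, h2]
  · refine ⟨1, v 0, fun k => ?_⟩
    fin_cases k
    · simp [wA]
    · simp [wA, h1]
    · simp [wA, h2]

theorem eigC (v : V3 K) (m : K) (h : opC K v = m • v) :
    ∃ (i : Fin 3) (c : K), ∀ k, v k = c * (wC i k : K) := by
  rw [opC_apply] at h
  have r0 := congrFun h 0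
  have r1 := congrFun h 1
  have r2 := congrFun h 2
  simp at r0 r1 r2
  rcases gen 1 2 (-1) m (v 0) (v 1) (v 2) (by norm_num) (by norm_num) two_ne_zero
    (by linear_combination r0)
    (by linear_combination r1) (by linear_combination r2) with ⟨h1, h2⟩ | ⟨h1, h2⟩ | ⟨h1, h2⟩
  · refine ⟨0, v 0, fun k => ?_⟩
    rw [one_mul] at h1
    fin_cases k
    · simp [wC]
    · simp [wC, h1]; ring
    · simp [wC, h2]
  · refine ⟨2, v 0, fun k => ?_⟩
    rw [one_mul] at h1
    fin_cases k
    · simp [wC]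
    · simp [wC, h1]; ring
    · simp [wC, h2]
  · refine ⟨1, v 0, fun k => ?_⟩
    fin_cases k
    · simp [wC]
    · simp [wC, h1]
    · simp [wC, h2]

theorem eigB (v : V3 K) (m : K) (h : opB K v = m • v) :
    ∃ (i : Fin 3) (c : K), ∀ k, v k = c * (wB i k : K) := by
  rw [opB_apply] at h
  have r0 := congrFun h 0
  have r1 := congrFun h 1
  have r2 := congrFun h 2
  simp at r0 r1 r2
  by_cases h1 : v 1 = 0
  · by_cases h0 : v 0 = 0
    · refine ⟨2, v 2, fun k => ?_⟩
      fin_cases k <;> simp [wB, h0, h1]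
    · have hm : m = 2 := by
        rcases r0 with h | h
        · exact h.symm
        · exact absurd h h0
      have h2 : v 2 = 0 := by
        rw [hm] at r2
        have : (4 : K) * v 2 = 0 := by linear_combination -r2
        exact (mul_eq_zero.mp this).resolve_left (by norm_num)
      refine ⟨0, v 0, fun k => ?_⟩
      fin_cases k <;> simp [wB, h2, h1]
  · have hm : m = 0 := by
      rcases r1 with h | h
      · exact h
      · exact absurd h h1
    have h0 : v 0 = 0 := by
      rw [hm] at r0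
      exact r0.resolve_left (by norm_num)
    have h2 : v 2 = 0 := by
      rw [hm] at r2
      have : (2 : K) * v 2 = 0 := by linear_combination -r2
      exact (mul_eq_zero.mp this).resolve_left (by norm_num)
    refine ⟨1, v 1, fun k => ?_⟩
    fin_cases k <;> simp [wB, h0, h2]

theorem lin3 (L : V3 K →ₗ[K] K) (v : V3 K) :
    L v = v 0 * L (Pi.single 0 1) + v 1 * L (Pi.single 1 1) + v 2 * L (Pi.single 2 1) := by
  have h : v = v 0 • (Pi.single 0 1 : V3 K) + v 1 • (Pi.single 1 1 : V3 K)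
      + v 2 • (Pi.single 2 1 : V3 K) := by
    funext k
    fin_cases k <;> simp
  conv_lhs => rw [h]
  simp only [map_add, map_smul, smul_eq_mul]

theorem covA (L : V3 K →ₗ[K] K) (m : K) (h : ∀ v, L (opA K v) = m * L v) :
    ∃ (i : Fin 3) (c : K), ∀ k, L (Pi.single k 1) = c * (lA i k : K) := by
  have r0 := h (Pi.single 0 1)
  have r1 := h (Pi.single 1 1)
  have r2 := h (Pi.single 2 1)
  rw [opA_apply, lin3 L ![_, _, _]] at r0 r1 r2
  simp at r0 r1 r2
  rcases gen 1 2 1 m (L (Pi.single 0 1)) (L (Pi.single 1 1)) (L (Pi.single 2 1)) (by norm_num)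
    (by norm_num) two_ne_zero (by linear_combination r0)
    (by linear_combination r1) (by linear_combination r2) with ⟨h1, h2⟩ | ⟨h1, h2⟩ | ⟨h1, h2⟩
  · refine ⟨0, L (Pi.single 0 1), fun k => ?_⟩
    rw [one_mul] at h1
    fin_cases k
    · simp [lA]
    · simp [lA, h1]; ring
    · simp [lA, h2]
  · refine ⟨2, L (Pi.single 0 1), fun k => ?_⟩
    rw [one_mul] at h1
    fin_cases k
    · simp [lA]
    · simp [lA, h1]; ring
    · simp [lA, h2]
  · refine ⟨1, L (Pi.single 0 1), fun k => ?_⟩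
    fin_cases k
    · simp [lA]
    · simp [lA, h1]
    · simp [lA, h2]

theorem covC (L : V3 K →ₗ[K] K) (m : K) (h : ∀ v, L (opC K v) = m * L v) :
    ∃ (i : Fin 3) (c : K), ∀ k, L (Pi.single k 1) = c * (lC i k : K) := by
  have r0 := h (Pi.single 0 1)
  have r1 := h (Pi.single 1 1)
  have r2 := h (Pi.single 2 1)
  rw [opC_apply, lin3 L ![_, _, _]] at r0 r1 r2
  simp at r0 r1 r2
  rcases gen 2 1 (-1) m (L (Pi.single 0 1)) (L (Pi.single 1 1)) (L (Pi.single 2 1)) (by norm_num)
    (by norm_num) two_ne_zero (by linear_combination r0)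
    (by linear_combination r1) (by linear_combination r2) with ⟨h1, h2⟩ | ⟨h1, h2⟩ | ⟨h1, h2⟩
  · refine ⟨0, L (Pi.single 0 1), fun k => ?_⟩
    have h1' := mul_left_cancel₀ (two_ne_zero (α := K)) h1
    fin_cases k
    · simp [lC]
    · simp [lC, h1']
    · simp [lC, h2]
  · refine ⟨2, L (Pi.single 0 1), fun k => ?_⟩
    have h1' : L (Pi.single 1 1) = -L (Pi.single 0 1) :=
      mul_left_cancel₀ (two_ne_zero (α := K)) (by linear_combination h1)
    fin_cases k
    · simp [lC]
    · simp [lC, h1']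
    · simp [lC, h2]
  · refine ⟨1, L (Pi.single 0 1), fun k => ?_⟩
    fin_cases k
    · simp [lC]
    · simp [lC, h1]
    · simp [lC, h2]

theorem covB (L : V3 K →ₗ[K] K) (m : K) (h : ∀ v, L (opB K v) = m * L v) :
    ∃ (i : Fin 3) (c : K), ∀ k, L (Pi.single k 1) = c * (wB i k : K) := by
  have r0 := h (Pi.single 0 1)
  have r1 := h (Pi.single 1 1)
  have r2 := h (Pi.single 2 1)
  rw [opB_apply, lin3 L ![_, _, _]] at r0 r1 r2
  simp at r0 r1 r2
  have := eigB ![L (Pi.single 0 1), L (Pi.single 1 1), L (Pi.single 2 1)] m (by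
    rw [opB_apply]
    funext k
    fin_cases k
    · simpa using r0
    · simpa using r1
    · simpa using r2)
  obtain ⟨i, c, hc⟩ := this
  refine ⟨i, c, fun k => ?_⟩
  have h3 := hc k
  fin_cases k
  · exact h3
  · exact h3
  · exact h3

theorem pairing (L : V3 K →ₗ[K] K) (v : V3 K) (l w : Fin 3 → ℤ) (c d : K)
    (hL : ∀ k, L (Pi.single k 1) = c * (l k : K)) (hv : ∀ k, v k = d * (w k : K)) :
    L v = c * d * ((dt l w : ℤ) : K) := by
  rw [lin3, hL, hL, hL, hv, hv, hv]
  unfold dt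
  push_cast
  ring

theorem mats (c : Basis (Fin 3) K (V3 K)) (v : Fin 3 → Fin 3 → K) (hc : ∀ i, c i = v i)
    (X : Module.End K (V3 K)) (N : Matrix (Fin 3) (Fin 3) K)
    (h : ∀ j k, X (v j) k = N 0 j * v 0 k + N 1 j * v 1 k + N 2 j * v 2 k) :
    LinearMap.toMatrix c c X = N := by
  apply mat_of
  intro j
  funext k
  rw [Fin.sum_univ_three, hc, hc, hc, hc, h j k]
  simp

theorem triple : IsLeonardTriple (opA K) (opB K) (opC K) := by
  refine ⟨?_, ?_, ?_⟩
  · obtain ⟨c, hc⟩ := exists_bas (![![1, 1, 1], ![1, 0, -1], ![1, -1, 1]] : Fin 3 → V3 K) (by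
      apply li_of
      intro x0 x1 x2 h
      have r0 := h 0
      have r1 := h 1
      have r2 := h 2
      simp at r0 r1 r2
      have e0 : (4 : K) * x0 = 0 := by linear_combination r0 + r2 + 2 * r1
      have e0' : x0 = 0 := (mul_eq_zero.mp e0).resolve_left (by norm_num)
      subst e0'
      have e2 : x2 = 0 := by linear_combination -r1
      subst e2
      exact ⟨rfl, by linear_combination r0, rfl⟩)
    refine ⟨3, c, ?_, ?_, ?_⟩
    · rw [mats c _ hc (opA K) !![2, 0, 0; 0, 0, 0; 0, 0, -2] (by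
        intro j k
        fin_cases j <;> fin_cases k <;> simp [opA_apply] <;> norm_num)]
      exact diag3 _ _ _
    · rw [mats c _ hc (opB K) !![0, 1, 0; 2, 0, 2; 0, 1, 0] (by
        intro j k
        fin_cases j <;> fin_cases k <;> simp [opB_apply] <;> norm_num)]
      exact irr3 _ _ _ _ _ _ _ (by norm_num) (by norm_num) (by norm_num) (by norm_num)
    · rw [mats c _ hc (opC K) !![0, 2, 0; 1, 0, -1; 0, -2, 0] (by
        intro j k
        fin_cases j <;> fin_cases k <;> simp [opC_apply] <;> norm_num)]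
      exact irr3 _ _ _ _ _ _ _ (by norm_num) (by norm_num) (by norm_num) (by norm_num)
  · obtain ⟨c, hc⟩ := exists_bas (![![1, 0, 0], ![0, 1, 0], ![0, 0, 1]] : Fin 3 → V3 K) (by
      apply li_of
      intro x0 x1 x2 h
      have r0 := h 0
      have r1 := h 1
      have r2 := h 2
      simp at r0 r1 r2
      exact ⟨r0, r1, r2⟩)
    refine ⟨3, c, ?_, ?_, ?_⟩
    · rw [mats c _ hc (opB K) !![2, 0, 0; 0, 0, 0; 0, 0, -2] (by
        intro j k
        fin_cases j <;> fin_cases k <;> simp [opB_apply])]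
      exact diag3 _ _ _
    · rw [mats c _ hc (opA K) !![0, 2, 0; 1, 0, 1; 0, 2, 0] (by
        intro j k
        fin_cases j <;> fin_cases k <;> simp [opA_apply])]
      exact irr3 _ _ _ _ _ _ _ (by norm_num) (by norm_num) (by norm_num) (by norm_num)
    · rw [mats c _ hc (opC K) !![0, 1, 0; 2, 0, -2; 0, -1, 0] (by
        intro j k
        fin_cases j <;> fin_cases k <;> simp [opC_apply])]
      exact irr3 _ _ _ _ _ _ _ (by norm_num) (by norm_num) (by norm_num) (by norm_num)
  · obtain ⟨c, hc⟩ := exists_bas (![![1, 2, -1], ![1, 0, 1], ![1, -2, -1]] : Fin 3 → V3 K) (by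
      apply li_of
      intro x0 x1 x2 h
      have r0 := h 0
      have r1 := h 1
      have r2 := h 2
      simp at r0 r1 r2
      have e0 : (4 : K) * x0 = 0 := by linear_combination r0 - r2 + r1
      have e0' : x0 = 0 := (mul_eq_zero.mp e0).resolve_left (by norm_num)
      subst e0'
      have e2 : (2 : K) * x2 = 0 := by linear_combination -r1
      have e2' : x2 = 0 := (mul_eq_zero.mp e2).resolve_left (by norm_num)
      subst e2'
      exact ⟨rfl, by linear_combination r0, rfl⟩)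
    refine ⟨3, c, ?_, ?_, ?_⟩
    · rw [mats c _ hc (opC K) !![2, 0, 0; 0, 0, 0; 0, 0, -2] (by
        intro j k
        fin_cases j <;> fin_cases k <;> simp [opC_apply] <;> norm_num)]
      exact diag3 _ _ _
    · rw [mats c _ hc (opA K) !![0, 1/2, 0; 4, 0, -4; 0, -1/2, 0] (by
        intro j k
        fin_cases j <;> fin_cases k <;> simp [opA_apply] <;> norm_num)]
      exact irr3 _ _ _ _ _ _ _ (by norm_num) (by norm_num) (by norm_num) (by norm_num)
    · rw [mats c _ hc (opB K) !![0, 1, 0; 2, 0, 2; 0, 1, 0] (by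
        intro j k
        fin_cases j <;> fin_cases k <;> simp [opB_apply] <;> norm_num)]
      exact irr3 _ _ _ _ _ _ _ (by norm_num) (by norm_num) (by norm_num) (by norm_num)

theorem noForm : ¬ HasEquitableForm (opA K) (opB K) (opC K) := by
  rintro ⟨x, y, z, h, hA, hB, hC⟩
  obtain ⟨P1, P2, P3, L1, L2, L3, ⟨p1, q1, r1, s1, t1⟩, ⟨p2, q2, r2, s2, t2⟩,
    ⟨p3, q3, r3, s3, t3⟩, e1, e2⟩ := flags (by simp) x y z h
  obtain ⟨a1, ha1⟩ := comb_vec hA P1 _ _ p1 q1
  obtain ⟨a2, ha2⟩ := comb_vec hB P2 _ _ p2 q2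
  obtain ⟨a3, ha3⟩ := comb_vec hC P3 _ _ p3 q3
  obtain ⟨b1, hb1⟩ := comb_covec hA L1 _ _ r1 s1
  obtain ⟨b2, hb2⟩ := comb_covec hB L2 _ _ r2 s2
  obtain ⟨b3, hb3⟩ := comb_covec hC L3 _ _ r3 s3
  obtain ⟨i, c1, hi⟩ := eigA P1 a1 ha1
  obtain ⟨k, c2, hk⟩ := eigB P2 a2 ha2
  obtain ⟨m, c3, hm⟩ := eigC P3 a3 ha3
  obtain ⟨j, d1, hj⟩ := covA L1 b1 hb1
  obtain ⟨l, d2, hl⟩ := covB L2 b2 hb2
  obtain ⟨n, d3, hn⟩ := covC L3 b3 hb3
  rw [pairing L1 P1 _ _ _ _ hj hi] at t1
  rw [pairing L2 P2 _ _ _ _ hl hk] at t2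
  rw [pairing L3 P3 _ _ _ _ hn hm] at t3
  rw [pairing L1 P2 _ _ _ _ hj hk, pairing L2 P3 _ _ _ _ hl hm,
    pairing L3 P1 _ _ _ _ hn hi] at e1
  rw [pairing L1 P3 _ _ _ _ hj hm, pairing L2 P1 _ _ _ _ hl hi,
    pairing L3 P2 _ _ _ _ hn hk] at e2
  have f1 : c1 * c2 * c3 * d1 * d2 * d3 *
      ((dt (lA j) (wB k) * dt (wB l) (wC m) * dt (lC n) (wA i) : ℤ) : K) = 2 := by
    push_cast
    linear_combination e1
  have f2 : c1 * c2 * c3 * d1 * d2 * d3 *
      ((dt (lA j) (wC m) * dt (wB l) (wA i) * dt (lC n) (wB k) : ℤ) : K) = 2 := by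
    push_cast
    linear_combination e2
  have hC0 : c1 * c2 * c3 * d1 * d2 * d3 ≠ 0 := by
    intro h0
    rw [h0, zero_mul] at f1
    exact two_ne_zero f1.symm
  have hc1 : c1 ≠ 0 := by rintro rfl; apply hC0; ring
  have hc2 : c2 ≠ 0 := by rintro rfl; apply hC0; ring
  have hc3 : c3 ≠ 0 := by rintro rfl; apply hC0; ring
  have hd1 : d1 ≠ 0 := by rintro rfl; apply hC0; ring
  have hd2 : d2 ≠ 0 := by rintro rfl; apply hC0; ring
  have hd3 : d3 ≠ 0 := by rintro rfl; apply hC0; ring
  have g1 : dt (lA j) (wA i) = 0 := by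
    exact_mod_cast (mul_eq_zero.mp t1).resolve_left (mul_ne_zero hd1 hc1)
  have g2 : dt (wB l) (wB k) = 0 := by
    exact_mod_cast (mul_eq_zero.mp t2).resolve_left (mul_ne_zero hd2 hc2)
  have g3 : dt (lC n) (wC m) = 0 := by
    exact_mod_cast (mul_eq_zero.mp t3).resolve_left (mul_ne_zero hd3 hc3)
  have g4 : dt (lA j) (wB k) * dt (wB l) (wC m) * dt (lC n) (wA i)
      = dt (lA j) (wC m) * dt (wB l) (wA i) * dt (lC n) (wB k) := by
    have := mul_left_cancel₀ hC0 (f1.trans f2.symm)
    exact_mod_cast this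
  have g5 := check i j k l m n g1 g2 g3 g4
  rw [g5] at f1
  simp at f1

end

/-- Over every field `K` of characteristic zero (in particular every algebraically closed one)
there is a Leonard triple `A, B, C` on `K ^ 3` (diameter `2`, so that the condition `β = 2` is
automatic) for which no irreducible `sl2`-module structure on `K ^ 3` has the required
properties. -/
theorem result (K : Type) [Field K] [CharZero K] :
    ∃ A B C : Module.End K (Fin 3 → K), IsLeonardTriple A B C ∧ ¬ HasEquitableForm A B C :=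
  ⟨opA K, opB K, opC K, triple, noForm⟩

end Pool.Agent.Results.MP_44ae8d_al.NoEquitable
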